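import Mathlib
import Pool.Agent.Lib.MP_6cd968_gt.Fin

/-!
# A subgraph of a contractible 2-complex whose coarse second homotopy is not trivial

Everything in the statement is Mathlib's or defined here: the geometric realization carries the
usual (weak) topology of a simplicial complex.
-/

set_option autoImplicit false

open scoped NNReal

namespace Pool.Agent.Results.MP_6cd968_gt.CoarsePiTwo

/-- The geometric realization of `K`, by barycentric coordinates: the functions `f ≥ 0` on the
vertices with sum one which vanish outside a face of `K`. -/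
def Realization {V : Type} (K : AbstractSimplicialComplex V) : Type :=
  {f : V → ℝ // (∀ v, 0 ≤ f v) ∧ ∃ s ∈ K, (∀ v, v ∉ s → f v = 0) ∧ ∑ v ∈ s, f v = 1}

open Classical in
/-- The inclusion of the closed simplex spanned by the face `s` (the standard simplex on the
vertices of `s`) in the realization. -/
noncomputable def simplexMap {V : Type} (K : AbstractSimplicialComplex V)
    (s : {s : Finset V // s ∈ K}) (x : stdSimplex ℝ s.1) : Realization K :=
  ⟨fun v => if h : v ∈ s.1 then x.1 ⟨v, h⟩ else 0,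
    fun v => by
      by_cases h : v ∈ s.1
      · simp only [dif_pos h]; exact x.2.1 _
      · simp only [dif_neg h]; exact le_rfl,
    s.1, s.2, fun v h => by simp only [dif_neg h], by
      rw [← Finset.sum_attach, ← x.2.2, ← Finset.attach_eq_univ]
      refine Finset.sum_congr rfl fun v _ => ?_
      simp only [dif_pos v.2]⟩

/-- The weak topology of the realization: the finest topology for which the inclusions of all the
closed simplices are continuous. -/
noncomputable instance topRealization {V : Type} (K : AbstractSimplicialComplex V) :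
    TopologicalSpace (Realization K) :=
  ⨆ s : {s : Finset V // s ∈ K}, TopologicalSpace.coinduced (simplexMap K s) inferInstance

/-- The 1-skeleton, as a graph. -/
def oneSkeleton {V : Type} (K : AbstractSimplicialComplex V) : SimpleGraph V where
  Adj u v := u ≠ v ∧ ∃ s ∈ K, (s : Set V) = {u, v}
  symm := ⟨fun u v h => ⟨h.1.symm, h.2.imp fun s hs => ⟨hs.1, by rw [hs.2, Set.pair_comm]⟩⟩⟩
  loopless := ⟨fun _ h => h.1 rfl⟩

/-- The Rips complex at scale `R` of the vertex set of the graph `H` with the path metric: the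
faces are the nonempty finite sets of diameter at most `R`. -/
def rips {Z : Type} (H : SimpleGraph Z) (R : ℝ≥0) : AbstractSimplicialComplex Z where
  faces := {s | s.Nonempty ∧ ∀ a ∈ s, ∀ b ∈ s, (H.dist a b : ℝ≥0) ≤ R}
  isRelLowerSet_faces := fun s hs =>
    ⟨hs.1, fun t hts ht => ⟨ht, fun a ha b hb => hs.2 a (hts ha) b (hts hb)⟩⟩
  singleton_mem := fun v => ⟨Finset.singleton_nonempty v, fun a ha b hb => by
    rw [Finset.mem_singleton] at ha hb
    rw [ha, hb, SimpleGraph.dist_self]
    simp⟩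

theorem simplexMap_continuous {V : Type} (K : AbstractSimplicialComplex V)
    (s : {s : Finset V // s ∈ K}) : Continuous (simplexMap K s) := by
  rw [continuous_iff_coinduced_le]
  exact le_iSup (fun s : {s : Finset V // s ∈ K} =>
    TopologicalSpace.coinduced (simplexMap K s) inferInstance) s

theorem continuous_of_simplexMap {V : Type} (K : AbstractSimplicialComplex V) {Y : Type*}
    [TopologicalSpace Y] (F : Realization K → Y)
    (h : ∀ s, Continuous (F ∘ simplexMap K s)) : Continuous F := by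
  rw [continuous_iff_coinduced_le]
  have e : topRealization K =
    ⨆ s : {s : Finset V // s ∈ K}, TopologicalSpace.coinduced (simplexMap K s) inferInstance := rfl
  rw [e, coinduced_iSup]
  refine iSup_le fun s => ?_
  rw [coinduced_compose, ← continuous_iff_coinduced_le]
  exact h s

/-- The inclusion of the realization of the Rips complex at scale `R` in the one at scale
`R' ≥ R`. -/
def ripsInclusion {Z : Type} (H : SimpleGraph Z) {R R' : ℝ≥0} (h : R ≤ R') :
    C(Realization (rips H R), Realization (rips H R')) where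
  toFun f := ⟨f.1, f.2.1, f.2.2.imp fun _ hs =>
    ⟨⟨hs.1.1, fun a ha b hb => (hs.1.2 a ha b hb).trans h⟩, hs.2⟩⟩
  continuous_toFun := continuous_of_simplexMap _ _ fun s =>
    simplexMap_continuous (rips H R') ⟨s.1, s.2.1, fun a ha b hb => (s.2.2 a ha b hb).trans h⟩

/-- The `m`-sphere. -/
abbrev Sph (m : ℕ) : Type := Metric.sphere (0 : EuclideanSpace ℝ (Fin (m + 1))) 1

/-- The vertex set of the graph `H` with the path metric has coarsely trivial `π_m`: for every
scale `R` there is `R' ≥ R` such that every map of the `m`-sphere to the Rips complex at scale `R`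
is null-homotopic in the Rips complex at scale `R'`. -/
def CoarselyTrivial (m : ℕ) {Z : Type} (H : SimpleGraph Z) : Prop :=
  ∀ R : ℝ≥0, ∃ (R' : ℝ≥0) (h : R ≤ R'), ∀ γ : C(Sph m, Realization (rips H R)),
    ((ripsInclusion H h).comp γ).Nullhomotopic

/-! ### Comparison with the metric topology -/

section Compare

open Pool.Agent.Lib.MP_6cd968_gt

variable {V : Type} (K : AbstractSimplicialComplex V)

/-- the realization inside `ℓ¹` -/
def LpSet : Set (lp (fun _ : V => ℝ) 1) :=
  {f | (∀ v, 0 ≤ f v) ∧ ∃ s ∈ K, (∀ v, v ∉ s → f v = 0) ∧ ∑ v ∈ s, f v = 1}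

/-- the map to `ℓ¹` -/
noncomputable def toLp (f : Realization K) : lp (fun _ : V => ℝ) 1 :=
  comb f.2.2.choose f.1

theorem toLp_apply (f : Realization K) (v : V) : toLp K f v = f.1 v := by
  classical
  unfold toLp
  rw [comb_apply]
  split_ifs with h
  · rfl
  · exact (f.2.2.choose_spec.2.1 v h).symm

theorem toLp_mem (f : Realization K) : toLp K f ∈ LpSet K := by
  refine ⟨fun v => ?_, ?_⟩
  · rw [toLp_apply]; exact f.2.1 v
  · obtain ⟨s, hs, h1, h2⟩ := f.2.2
    refine ⟨s, hs, fun v hv => ?_, ?_⟩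
    · rw [toLp_apply]; exact h1 v hv
    · rw [← h2]; exact Finset.sum_congr rfl fun v _ => toLp_apply K f v

theorem toLp_continuous : Continuous (toLp K) := by
  classical
  refine continuous_of_simplexMap K _ fun s => ?_
  have h : toLp K ∘ simplexMap K s = fun x : stdSimplex ℝ s.1 =>
      comb s.1 (fun v => (simplexMap K s x).1 v) := by
    funext x
    apply lp.ext
    ext v
    show toLp K (simplexMap K s x) v = _
    rw [toLp_apply, comb_apply]
    split_ifs with h
    · rfl
    · show (if h : v ∈ s.1 then x.1 ⟨v, h⟩ else 0) = 0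
      rw [dif_neg h]
  rw [h]
  have := continuousOn_comb (X := stdSimplex ℝ s.1) s.1
    (fun x v => (simplexMap K s x).1 v) Set.univ ?_
  · rwa [continuousOn_univ] at this
  · intro a ha
    rw [continuousOn_univ]
    show Continuous (fun x : stdSimplex ℝ s.1 => if h : a ∈ s.1 then x.1 ⟨a, h⟩ else 0)
    simp only [dif_pos ha]
    exact (continuous_apply _).comp continuous_subtype_val

/-- the map from `ℓ¹` -/
def ofLp (f : LpSet K) : Realization K := ⟨fun v => f.1 v, f.2⟩

theorem ofLp_toLp (f : Realization K) : ofLp K ⟨toLp K f, toLp_mem K f⟩ = f :=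
  Subtype.ext (funext fun v => toLp_apply K f v)

theorem toLp_ofLp (f : LpSet K) : toLp K (ofLp K f) = f.1 := by
  apply lp.ext
  ext v
  exact toLp_apply K _ v

theorem ofLp_continuous (hK : ∀ v : V, {s : Finset V | s ∈ K ∧ v ∈ s}.Finite) :
    Continuous (ofLp K) := by
  classical
  refine LocallyFinite.continuous (f := fun s : {s : Finset V // s ∈ K} =>
    {f : LpSet K | ∀ v, v ∉ s.1 → f.1 v = 0}) ?_ ?_ ?_ ?_
  · intro f
    obtain ⟨h0, s, hs, h1, h2⟩ := f.2
    obtain ⟨v, hv, hpos⟩ : ∃ v ∈ s, 0 < f.1 v := by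
      by_contra hc
      push Not at hc
      have := Finset.sum_nonpos hc
      linarith
    refine ⟨{g : LpSet K | 0 < g.1 v}, ?_, ?_⟩
    · exact (isOpen_lt continuous_const
        ((continuous_eval v).comp continuous_subtype_val)).mem_nhds hpos
    · have hfin : (Subtype.val ⁻¹' {s : Finset V | s ∈ K ∧ v ∈ s} :
          Set {s : Finset V // s ∈ K}).Finite :=
        (hK v).preimage (Subtype.val_injective.injOn)
      refine hfin.subset ?_
      rintro t ⟨g, hg1, hg2⟩
      refine ⟨t.2, ?_⟩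
      by_contra hc
      have h3 := hg1 v hc
      have h4 : 0 < g.1 v := hg2
      rw [h3] at h4
      exact lt_irrefl _ h4
  · ext f
    simp only [Set.mem_iUnion, Set.mem_univ, iff_true]
    obtain ⟨h0, s, hs, h1, h2⟩ := f.2
    exact ⟨⟨s, hs⟩, h1⟩
  · intro s
    have : {f : LpSet K | ∀ v, v ∉ s.1 → f.1 v = 0} =
        ⋂ v, ⋂ (_ : v ∉ s.1), {f : LpSet K | f.1 v = 0} := by
      ext f; simp
    rw [this]
    refine isClosed_iInter fun v => isClosed_iInter fun _ => ?_
    exact isClosed_eq ((continuous_eval v).comp continuous_subtype_val) continuous_const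
  · intro s
    rw [continuousOn_iff_continuous_domRestrict]
    have hx : ∀ f : {f : LpSet K | ∀ v, v ∉ s.1 → f.1 v = 0},
        (fun v : s.1 => f.1.1 v) ∈ stdSimplex ℝ s.1 := by
      intro f
      obtain ⟨h0, t, ht, h1, h2⟩ := f.1.2
      refine ⟨fun v => h0 v, ?_⟩
      have e1 : ∑ v : s.1, f.1.1 v = ∑ v ∈ s.1, f.1.1 v :=
        Finset.sum_coe_sort s.1 (fun v => f.1.1 v)
      rw [e1, ← h2]
      have e2 : ∑ v ∈ s.1, f.1.1 v = ∑ v ∈ s.1 ∪ t, f.1.1 v :=
        Finset.sum_subset Finset.subset_union_left fun v _ hv => f.2 v hv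
      have e3 : ∑ v ∈ t, f.1.1 v = ∑ v ∈ s.1 ∪ t, f.1.1 v :=
        Finset.sum_subset Finset.subset_union_right fun v _ hv => h1 v hv
      rw [e2, e3]
    have hc : Continuous (fun f : {f : LpSet K | ∀ v, v ∉ s.1 → f.1 v = 0} =>
        (⟨fun v : s.1 => f.1.1 v, hx f⟩ : stdSimplex ℝ s.1)) := by
      refine Continuous.subtype_mk (continuous_pi fun v => ?_) _
      exact (continuous_eval v.1).comp (continuous_subtype_val.comp continuous_subtype_val)
    have := (simplexMap_continuous K s).comp hc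
    refine this.congr fun f => ?_
    apply Subtype.ext
    funext v
    show (if h : v ∈ s.1 then f.1.1 v else 0) = f.1.1 v
    split_ifs with h
    · rfl
    · exact (f.2 v h).symm

/-- the homeomorphism -/
noncomputable def homeo (hK : ∀ v : V, {s : Finset V | s ∈ K ∧ v ∈ s}.Finite) :
    Realization K ≃ₜ LpSet K where
  toFun f := ⟨toLp K f, toLp_mem K f⟩
  invFun := ofLp K
  left_inv := ofLp_toLp K
  right_inv f := Subtype.ext (toLp_ofLp K f)
  continuous_toFun := (toLp_continuous K).subtype_mk _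
  continuous_invFun := ofLp_continuous K hK

end Compare

/-! ### From null-homotopies to extensions to the ball -/

theorem exists_extension {Z : Type} [TopologicalSpace Z] (H : unitInterval × Sph 2 → Z)
    (hH : Continuous H) (c : Z) (h1 : ∀ x, H (1, x) = c) :
    ∃ Γ : Metric.closedBall (0 : EuclideanSpace ℝ (Fin (2 + 1))) 1 → Z, Continuous Γ ∧
      ∀ x : Sph 2, ∀ y, y.1 = x.1 → Γ y = H (0, x) := by
  have hn : ∀ x : Sph 2, ‖x.1‖ = 1 := fun x => by
    have := x.2
    rwa [mem_sphere_zero_iff_norm] at this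
  have hmem : ∀ p : unitInterval × Sph 2, (1 - (p.1 : ℝ)) • p.2.1 ∈
      Metric.closedBall (0 : EuclideanSpace ℝ (Fin (2 + 1))) 1 := by
    intro p
    have h0 := p.1.2.1
    have h2 := p.1.2.2
    rw [mem_closedBall_zero_iff, norm_smul, hn, mul_one, Real.norm_eq_abs,
      abs_of_nonneg (by linarith)]
    linarith
  let q : C(unitInterval × Sph 2, Metric.closedBall (0 : EuclideanSpace ℝ (Fin (2 + 1))) 1) :=
    ⟨fun p => ⟨(1 - (p.1 : ℝ)) • p.2.1, hmem p⟩, by
      refine Continuous.subtype_mk ?_ _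
      exact (continuous_const.sub (continuous_subtype_val.comp continuous_fst)).smul
        (continuous_subtype_val.comp continuous_snd)⟩
  have hsurj : Function.Surjective q := by
    intro y
    have hy := y.2
    rw [mem_closedBall_zero_iff] at hy
    have hy0 := norm_nonneg y.1
    by_cases h : y.1 = 0
    · refine ⟨(1, ⟨EuclideanSpace.single 0 1, ?_⟩), ?_⟩
      · rw [mem_sphere_zero_iff_norm, PiLp.norm_single, norm_one]
      · apply Subtype.ext
        show (1 - ((1 : unitInterval) : ℝ)) • _ = y.1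
        rw [h]
        simp
    · have hpos : 0 < ‖y.1‖ := norm_pos_iff.mpr h
      refine ⟨(⟨1 - ‖y.1‖, by linarith, by linarith⟩, ⟨‖y.1‖⁻¹ • y.1, ?_⟩), ?_⟩
      · rw [mem_sphere_zero_iff_norm, norm_smul, norm_inv, norm_norm, inv_mul_cancel₀ hpos.ne']
      · apply Subtype.ext
        show (1 - (1 - ‖y.1‖)) • (‖y.1‖⁻¹ • y.1) = y.1
        rw [sub_sub_cancel, smul_smul, mul_inv_cancel₀ hpos.ne', one_smul]
  have hq : Topology.IsQuotientMap q :=
    q.continuous.isClosedMap.isQuotientMap q.continuous hsurj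
  have hfac : Function.FactorsThrough (⟨H, hH⟩ : C(unitInterval × Sph 2, Z)) q := by
    intro p p' hpp
    have e : (1 - (p.1 : ℝ)) • p.2.1 = (1 - (p'.1 : ℝ)) • p'.2.1 := congrArg Subtype.val hpp
    have hl := p.1.2.2
    have hl' := p'.1.2.2
    have e1 : 1 - (p.1 : ℝ) = 1 - (p'.1 : ℝ) := by
      have := congrArg norm e
      rwa [norm_smul, norm_smul, hn, hn, mul_one, mul_one, Real.norm_eq_abs, Real.norm_eq_abs,
        abs_of_nonneg (by linarith), abs_of_nonneg (by linarith)] at this
    have e2 : p.1 = p'.1 := Subtype.ext (by linarith)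
    show H p = H p'
    by_cases h : (p.1 : ℝ) = 1
    · have h3 : p.1 = 1 := Subtype.ext h
      have h4 : p'.1 = 1 := e2 ▸ h3
      have e3 : p = (1, p.2) := Prod.ext h3 rfl
      have e4 : p' = (1, p'.2) := Prod.ext h4 rfl
      rw [e3, e4, h1, h1]
    · have h3 : 1 - (p'.1 : ℝ) ≠ 0 := by
        rw [← e1]
        intro h4
        exact h (by linarith)
      rw [e1] at e
      have e5 : p.2 = p'.2 := Subtype.ext (smul_right_injective _ h3 e)
      rw [show p = p' from Prod.ext e2 e5]
  refine ⟨hq.lift ⟨H, hH⟩ hfac, (hq.lift ⟨H, hH⟩ hfac).continuous, fun x y hxy => ?_⟩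
  have h2 := DFunLike.congr_fun (hq.lift_comp ⟨H, hH⟩ hfac) (0, x)
  have h3 : q (0, x) = y := by
    apply Subtype.ext
    show (1 - ((0 : unitInterval) : ℝ)) • x.1 = y.1
    rw [hxy]
    simp
  rw [← h3]
  exact h2

/-! ### The example -/

section Example

open Pool.Agent.Lib.MP_6cd968_gt

/-- the complex -/
def cplx : AbstractSimplicialComplex VV where
  faces := SS
  isRelLowerSet_faces := fun s hs => ⟨(SS_card s hs).1, fun t hts ht => SS_down s hs t hts ht⟩
  singleton_mem := SS_single

theorem pair_mem (u v : VV) (h : ∃ s ∈ SS, u ∈ s ∧ v ∈ s) :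
    ∃ s ∈ cplx, (s : Set VV) = {u, v} := by
  classical
  obtain ⟨s, hs, hu, hv⟩ := h
  refine ⟨{u, v}, SS_down s hs {u, v} ?_ ⟨u, by simp⟩, by simp⟩
  intro w hw
  rw [Finset.mem_insert, Finset.mem_singleton] at hw
  rcases hw with rfl | rfl
  · exact hu
  · exact hv

theorem Yadj_oneSkeleton (u v : VV) (h : Yadj u v) : (oneSkeleton cplx).Adj u v := by
  have h1 := Yadj_sub u v h
  rw [SimpleGraph.fromRel_adj] at h1
  refine ⟨h1.1, ?_⟩
  rcases h1.2 with h2 | ⟨s, hs, h2, h3⟩
  · exact pair_mem u v h2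
  · exact pair_mem u v ⟨s, hs, h3, h2⟩

/-- the subgraph -/
def sub : (oneSkeleton cplx).Subgraph where
  verts := Set.univ
  Adj := Yadj
  adj_sub := fun {u v} h => Yadj_oneSkeleton u v h
  edge_vert := fun _ => Set.mem_univ _
  symm := ⟨fun u v h => Yadj_symm u v h⟩

theorem sub_coe : sub.coe = YY.coe := rfl

theorem sub_connected : sub.Connected := ⟨YY_coe_connected⟩

theorem Yadj_near (u v : VV) (h : Yadj u v) : |u.1 - v.1| ≤ 1 ∧ |u.2.1 - v.2.1| ≤ 1 := by
  rcases h with ⟨h1, h2, _⟩ | ⟨h1, h2, _, _⟩ | ⟨h1, h2, _, _⟩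
  · rw [h1, sub_self, abs_zero, abs_le]
    omega
  · rw [h2, sub_self, abs_zero, abs_le]
    omega
  · rw [h1, h2, sub_self, sub_self, abs_zero]
    omega

theorem walk_near (a b : sub.verts) (p : sub.coe.Walk a b) :
    |a.1.1 - b.1.1| ≤ p.length ∧ |a.1.2.1 - b.1.2.1| ≤ p.length := by
  induction p with
  | nil => simp
  | cons h p ih =>
    have h1 := Yadj_near _ _ h
    rw [SimpleGraph.Walk.length_cons]
    push_cast
    rw [abs_le] at *
    rw [abs_le] at *
    omega

theorem dist_near (a b : sub.verts) :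
    |a.1.1 - b.1.1| ≤ sub.coe.dist a b ∧ |a.1.2.1 - b.1.2.1| ≤ sub.coe.dist a b := by
  obtain ⟨p, hp⟩ := (show sub.coe.Reachable a b from
    YY_coe_connected a b).exists_walk_length_eq_dist
  have := walk_near a b p
  rwa [hp] at this

theorem rips_finite (v : sub.verts) : {s : Finset sub.verts | s ∈ rips sub.coe 4 ∧ v ∈ s}.Finite := by
  classical
  have hball : {b : sub.verts | sub.coe.dist v b ≤ 4}.Finite := by
    have hbox : ((Finset.Icc (v.1.1 - 4) (v.1.1 + 4) ×ˢ
        (Finset.Icc (v.1.2.1 - 4) (v.1.2.1 + 4) ×ˢ (Finset.univ : Finset Bool)) :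
        Finset VV) : Set VV).Finite := Finset.finite_toSet _
    refine (hbox.preimage (Subtype.val_injective (p := fun x => x ∈ sub.verts)).injOn).subset ?_
    intro b hb
    have hb' : sub.coe.dist v b ≤ 4 := hb
    have hb2 : (sub.coe.dist v b : ℤ) ≤ 4 := by exact_mod_cast hb'
    obtain ⟨h1, h2⟩ := dist_near v b
    have h3 := h1.trans hb2
    have h4 := h2.trans hb2
    rw [abs_le] at h3 h4
    rw [Set.mem_preimage, Finset.mem_coe, Finset.mem_product, Finset.mem_product, Finset.mem_Icc,
      Finset.mem_Icc]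
    exact ⟨⟨by omega, by omega⟩, ⟨by omega, by omega⟩, Finset.mem_univ _⟩
  refine (hball.finite_subsets.preimage Finset.coe_injective.injOn).subset ?_
  rintro s ⟨hs, hv⟩ b hb
  have := hs.2 v hv b hb
  have h4 : ((4 : ℕ) : ℝ≥0) = 4 := by norm_num
  rw [← h4] at this
  show sub.coe.dist v b ≤ 4
  exact_mod_cast this

theorem cplx_finite (v : VV) : {s : Finset VV | s ∈ cplx ∧ v ∈ s}.Finite := by
  classical
  refine ((box v).powerset.finite_toSet).subset ?_
  rintro s ⟨⟨_, i, j, l, hs⟩, hv⟩
  rw [Finset.mem_coe, Finset.mem_powerset]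
  exact hs.trans (tri_subset_box i j l v (hs hv))

theorem cplx_contractible : ContractibleSpace (Realization cplx) := by
  have : ContractibleSpace (LpSet cplx) := contractible_XX
  exact (homeo cplx cplx_finite).contractibleSpace

theorem not_null (R' : ℝ≥0) (h : 4 ≤ R') : ∃ γ : C(Sph 2, Realization (rips sub.coe 4)),
    ¬ ((ripsInclusion sub.coe h).comp γ).Nullhomotopic := by
  obtain ⟨γ, g1, g2, g3⟩ := main_sphere R' R'.2
  have hmem : ∀ x : Sph 2, γ x.1 ∈ LpSet (rips sub.coe 4) := by
    intro x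
    obtain ⟨h0, s, h1, h2, h3⟩ := g2 x.2
    refine ⟨h0, s, ⟨?_, fun a ha b hb => ?_⟩, h1, h2⟩
    · rw [Finset.nonempty_iff_ne_empty]
      intro hs
      have h4 := Finset.sum_eq_zero (s := s) (f := fun a => (γ x.1) a)
        (fun a ha => absurd (hs ▸ ha) (Finset.notMem_empty a))
      exact zero_ne_one (h4.symm.trans h2)
    · have := h3 a ha b hb
      have h4 : (((sub.coe.dist a b : ℝ≥0) : ℝ)) ≤ ((4 : ℝ≥0) : ℝ) := by
        push_cast
        exact this
      exact_mod_cast h4
  let γ' : C(Sph 2, Realization (rips sub.coe 4)) :=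
    ⟨fun x => ofLp _ ⟨γ x.1, hmem x⟩, (ofLp_continuous _ rips_finite).comp
      ((continuousOn_iff_continuous_domRestrict.mp g1).subtype_mk _)⟩
  refine ⟨γ', ?_⟩
  rintro ⟨y, ⟨H⟩⟩
  obtain ⟨Γ, k1, k2⟩ := exists_extension (fun p => H p) H.continuous y (fun x => by
      rw [H.apply_one]
      rfl)
  classical
  let Γ' : EuclideanSpace ℝ (Fin (2 + 1)) → lp (fun _ : sub.verts => ℝ) 1 := fun x =>
    if hx : x ∈ Metric.closedBall (0 : EuclideanSpace ℝ (Fin (2 + 1))) 1 then
      toLp _ (Γ ⟨x, hx⟩) else 0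
  have e1 : ∀ x : Metric.closedBall (0 : EuclideanSpace ℝ (Fin (2 + 1))) 1,
      Γ' x.1 = toLp _ (Γ x) := fun x => dif_pos x.2
  refine g3 Γ' ?_ ?_ ?_
  · rw [continuousOn_iff_continuous_domRestrict]
    exact ((toLp_continuous _).comp k1).congr fun x => (e1 x).symm
  · intro x hx
    have h1 := toLp_mem _ (Γ ⟨x, hx⟩)
    rw [← e1 ⟨x, hx⟩] at h1
    obtain ⟨h0, s, h2, h3, h4⟩ := h1
    refine ⟨h0, s, h3, h4, fun a ha b hb => ?_⟩
    have h5 := h2.2 a ha b hb
    exact_mod_cast h5
  · intro x hx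
    have hx' : x ∈ Metric.closedBall (0 : EuclideanSpace ℝ (Fin (2 + 1))) 1 :=
      Metric.sphere_subset_closedBall hx
    have h1 := e1 ⟨x, hx'⟩
    rw [k2 ⟨x, hx⟩ ⟨x, hx'⟩ rfl, H.apply_zero] at h1
    refine h1.trans ?_
    apply lp.ext
    ext v
    exact toLp_apply _ _ v

end Example

/-- There are a 2-dimensional locally finite simplicial complex `K` with contractible realization,
a free cocompact action of `ℤ²` on `K` by simplicial automorphisms and a connected subgraph `Y` of
the 1-skeleton, containing all the vertices, such that for all scales `4 ≤ R ≤ R'` there is a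
2-sphere in the Rips complex of `Y` at scale `R` which is not null-homotopic in the Rips complex
at scale `R'`; hence `Y` does not have coarsely trivial `π_2`. -/
theorem result : ∃ (V : Type) (K : AbstractSimplicialComplex V)
    (act : MulAction (Multiplicative (ℤ × ℤ)) V) (Y : (oneSkeleton K).Subgraph),
    (∀ s ∈ K, s.card ≤ 3) ∧ (∃ s ∈ K, s.card = 3) ∧ (∀ v, {s | s ∈ K ∧ v ∈ s}.Finite) ∧
    ContractibleSpace (Realization K) ∧
    (∀ g : Multiplicative (ℤ × ℤ), ∀ s ∈ K, ∃ t ∈ K, (t : Set V) = (g • ·) '' (s : Set V)) ∧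
    (∀ g : Multiplicative (ℤ × ℤ), g ≠ 1 → ∀ s ∈ K, (g • ·) '' (s : Set V) ≠ s) ∧
    (∃ F : Finset (Finset V), ∀ s ∈ K, ∃ g : Multiplicative (ℤ × ℤ), ∃ t ∈ F,
      (s : Set V) = (g • ·) '' (t : Set V)) ∧
    Y.Connected ∧ Y.verts = Set.univ ∧
    (∀ (R R' : ℝ≥0) (h : R ≤ R'), 4 ≤ R → ∃ γ : C(Sph 2, Realization (rips Y.coe R)),
      ¬ ((ripsInclusion Y.coe h).comp γ).Nullhomotopic) ∧
    ¬ CoarselyTrivial 2 Y.coe := by
  have key : ∀ (R R' : ℝ≥0) (h : R ≤ R'), 4 ≤ R → ∃ γ : C(Sph 2, Realization (rips sub.coe R)),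
      ¬ ((ripsInclusion sub.coe h).comp γ).Nullhomotopic := by
    intro R R' h hR
    obtain ⟨γ, hγ⟩ := not_null R' (hR.trans h)
    exact ⟨(ripsInclusion sub.coe hR).comp γ, hγ⟩
  refine ⟨Pool.Agent.Lib.MP_6cd968_gt.VV, cplx, Pool.Agent.Lib.MP_6cd968_gt.act, sub,
    fun s hs => (Pool.Agent.Lib.MP_6cd968_gt.SS_card s hs).2,
    ⟨_, Pool.Agent.Lib.MP_6cd968_gt.tri_mem_SS 0 0 0, rfl⟩, cplx_finite, cplx_contractible,
    Pool.Agent.Lib.MP_6cd968_gt.cond_inv, Pool.Agent.Lib.MP_6cd968_gt.cond_free,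
    Pool.Agent.Lib.MP_6cd968_gt.cond_fin, sub_connected, rfl, key, ?_⟩
  intro hc
  obtain ⟨R', h, h'⟩ := hc 4
  obtain ⟨γ, hγ⟩ := key 4 R' h le_rfl
  exact hγ (h' γ)

end Pool.Agent.Results.MP_6cd968_gt.CoarsePiTwo
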